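import Pool.Agent.W662.KKS.Stmts3
import Pool.Agent.W203.KKS.UL
import Pool.Agent.W663.KK.Masa
import Pool.Agent.W928.KKS.Red

/-! GUL: a small unitary moves the masa into `N` and its right copy into the commutant. -/

set_option autoImplicit false
set_option linter.unusedSectionVars false

open Filter Topology
open scoped InnerProductSpace
open Pool.Agent.Helper278 (IsMasa Elt IsIIOneFactor)
open Pool.Agent.W663.KK (norm_unitary_le UI UI_unitary UI_mem UI_surj UG_comm span_unitaries)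
open Pool.Agent.W662.KKS Pool.Agent.W203.KKS
open Pool.Agent.W928.KKS.Red (exists_iso cj cj_apply norm_cj cj_sub)

namespace Pool.Agent.W99.KKS.GUL

variable {H : Type} [NormedAddCommGroup H] [InnerProductSpace ℂ H] [CompleteSpace H]

theorem near_to {S T T' : Set (H →L[ℂ] H)} {v : H →L[ℂ] H} (hv : v ∈ unitary (H →L[ℂ] H))
    (hT : ∀ x, x ∈ T' ↔ v * x * star v ∈ T) {γ η : ℝ} (hγ : γ ≤ 1) (hη : ‖v - 1‖ ≤ η)
    (h : Near S T γ) : Near S T' (γ + 4 * η) := by
  have hvv := (Unitary.mem_iff.1 hv).1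
  have hvv' := (Unitary.mem_iff.1 hv).2
  have hη0 : 0 ≤ η := (norm_nonneg _).trans hη
  intro x hx
  obtain ⟨y, hy, hxy⟩ := h x hx
  refine ⟨star v * y * v, ?_, ?_⟩
  · rw [hT]
    have h1 : v * (star v * y * v) * star v = y := by
      calc v * (star v * y * v) * star v = (v * star v) * y * (v * star v) := by noncomm_ring
        _ = y := by rw [hvv', one_mul, mul_one]
    rw [h1]
    exact hy
  · have h2 : ‖y‖ ≤ 2 * ‖x‖ := by
      have h4 : y = x - (x - y) := by abel
      have h3 : ‖y‖ ≤ ‖x‖ + ‖x - y‖ := by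
        calc ‖y‖ = ‖x - (x - y)‖ := by rw [← h4]
          _ ≤ ‖x‖ + ‖x - y‖ := norm_sub_le _ _
      have h5 : γ * ‖x‖ ≤ ‖x‖ := by nlinarith [norm_nonneg x]
      linarith
    have h3 : ‖y - star v * y * v‖ ≤ 2 * η * ‖y‖ := by
      have e : y - star v * y * v = star v * ((v - 1) * y - y * (v - 1)) := by
        calc y - star v * y * v = 1 * y - star v * y * v := by rw [one_mul]
          _ = (star v * v) * y - star v * y * v := by rw [hvv]
          _ = _ := by noncomm_ring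
      rw [e]
      have hsv : ‖star v‖ ≤ 1 := by rw [norm_star]; exact norm_unitary_le hv
      have h6 : ‖(v - 1) * y‖ ≤ η * ‖y‖ :=
        (norm_mul_le _ _).trans (mul_le_mul_of_nonneg_right hη (norm_nonneg _))
      have h7 : ‖y * (v - 1)‖ ≤ ‖y‖ * η :=
        (norm_mul_le _ _).trans (mul_le_mul_of_nonneg_left hη (norm_nonneg _))
      calc _ ≤ ‖star v‖ * ‖(v - 1) * y - y * (v - 1)‖ := norm_mul_le _ _
        _ ≤ 1 * ‖(v - 1) * y - y * (v - 1)‖ := mul_le_mul_of_nonneg_right hsv (norm_nonneg _)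
        _ ≤ 2 * η * ‖y‖ := by
          have := norm_sub_le ((v - 1) * y) (y * (v - 1))
          linarith
    have h4 : x - star v * y * v = (x - y) + (y - star v * y * v) := by abel
    rw [h4]
    have h5 : 2 * η * ‖y‖ ≤ 2 * η * (2 * ‖x‖) := mul_le_mul_of_nonneg_left h2 (by positivity)
    have h6 := norm_add_le (x - y) (y - star v * y * v)
    calc _ ≤ γ * ‖x‖ + 2 * η * (2 * ‖x‖) := by linarith
      _ = _ := by ring

theorem near_from {S T T' : Set (H →L[ℂ] H)} {v : H →L[ℂ] H} (hv : v ∈ unitary (H →L[ℂ] H))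
    (hT : ∀ x, x ∈ T' ↔ v * x * star v ∈ T) {γ η : ℝ} (hη : ‖v - 1‖ ≤ η)
    (h : Near T S γ) : Near T' S (γ + 4 * η) := by
  have hη0 : 0 ≤ η := (norm_nonneg _).trans hη
  intro z hz
  obtain ⟨x, hx, hxy⟩ := h _ ((hT z).1 hz)
  refine ⟨x, hx, ?_⟩
  have h1 := cj_sub v hv hη z
  have h2 := norm_cj v hv z
  rw [cj_apply] at h1 h2
  rw [h2] at hxy
  have h3 : z - x = (v * z * star v - x) - (v * z * star v - z) := by abel
  rw [h3]
  have h4 := norm_sub_le (v * z * star v - x) (v * z * star v - z)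
  nlinarith [norm_nonneg z, mul_nonneg hη0 (norm_nonneg z)]

theorem gul : S_GUL := by
  refine ⟨20000, by norm_num, ?_⟩
  intro H _ _ _ M N ξ ρ A γ hS hA hγ0 hγ hMN hNM hMN' hNM'
  have hγ1 : γ ≤ 1 / 20000 := hγ
  -- first unitary
  have hUu : ∀ g, UI A g ∈ unitary (H →L[ℂ] H) := fun g => UI_unitary A g
  have hUM : ∀ g, UI A g ∈ M := fun g => hA.le _ (UI_mem A g)
  have hn1 : ∀ g, ‖UI A g‖ ≤ 1 := fun g => norm_unitary_le (hUu g)
  obtain ⟨w₁, hw₁, hw₁1, -, hw₁N⟩ := Pool.Agent.W663.KK.perturb (UG_comm hA) (UI A) hUu N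
    (γ := γ) (by linarith) (fun g => by
      obtain ⟨y, hy, hyd⟩ := hMN (UI A g) (hUM g)
      exact ⟨y, hy, hyd.trans (by nlinarith [hn1 g])⟩)
  have hw₁n : ‖w₁‖ ≤ 1 := norm_unitary_le hw₁
  have hw₁s : star w₁ ∈ unitary (H →L[ℂ] H) := Unitary.star_mem hw₁
  have hw₁sn : ‖star w₁‖ ≤ 1 := norm_unitary_le hw₁s
  have e1 := (Unitary.mem_iff.1 hw₁).1
  have e2 := (Unitary.mem_iff.1 hw₁).2
  -- the right copy
  have hsM : ∀ g, star (UI A g) ∈ M := fun g => star_mem (s := M.toStarSubalgebra) (hUM g)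
  let V : Pool.Agent.W663.KK.UG A →* (H →L[ℂ] H) :=
    { toFun := fun u => ρ (star (UI A u))
      map_one' := by rw [map_one, star_one, hS.one]
      map_mul' := fun a b => by
        rw [map_mul, star_mul, hS.mul _ (hsM b) _ (hsM a)] }
  have hVd : ∀ g, V g = ρ (star (UI A g)) := fun _ => rfl
  have hVu : ∀ g, V g ∈ unitary (H →L[ℂ] H) := by
    intro g
    have h1 : star (V g) = ρ (UI A g) := by
      rw [hVd, ← hS.stm _ (hsM g), star_star]
    refine Unitary.mem_iff.2 ⟨?_, ?_⟩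
    · rw [h1, hVd, ← hS.mul _ (hsM g) _ (hUM g), (Unitary.mem_iff.1 (hUu g)).1, hS.one]
    · rw [h1, hVd, ← hS.mul _ (hUM g) _ (hsM g), (Unitary.mem_iff.1 (hUu g)).2, hS.one]
  have hVM : ∀ g, V g ∈ M.commutant := by
    intro g
    rw [VonNeumannAlgebra.mem_commutant_iff]
    intro x hx
    exact (hS.comm _ (hsM g) x hx).symm
  have hVn : ∀ g, ‖V g‖ ≤ 1 := fun g => norm_unitary_le (hVu g)
  obtain ⟨w₂, hw₂, hw₂1, hw₂c, hw₂N⟩ := Pool.Agent.W663.KK.perturb (UG_comm hA) V hVu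
    (cvn w₁ hw₁ N).commutant (γ := 33 * γ)
    (by linarith) (fun g => by
      obtain ⟨y, hy, hyd⟩ := hMN' (V g) (hVM g)
      have hyd' : ‖V g - y‖ ≤ γ := hyd.trans (by nlinarith [hVn g])
      refine ⟨star w₁ * y * w₁, ?_, ?_⟩
      · rw [mem_cvn_commutant]
        have h1 : w₁ * (star w₁ * y * w₁) * star w₁ = y := by
          calc w₁ * (star w₁ * y * w₁) * star w₁ = (w₁ * star w₁) * y * (w₁ * star w₁) := by
                noncomm_ring
            _ = y := by rw [e2, one_mul, mul_one]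
        rw [h1]
        exact hy
      · have h1 : V g - star w₁ * y * w₁ =
            star w₁ * ((w₁ - 1) * V g - V g * (w₁ - 1)) + star w₁ * (V g - y) * w₁ := by
          calc V g - star w₁ * y * w₁ = 1 * V g - star w₁ * y * w₁ := by rw [one_mul]
            _ = (star w₁ * w₁) * V g - star w₁ * y * w₁ := by rw [e1]
            _ = _ := by noncomm_ring
        rw [h1]
        have h2 : ‖star w₁ * ((w₁ - 1) * V g - V g * (w₁ - 1))‖ ≤ 32 * γ := by
          calc _ ≤ ‖star w₁‖ * ‖(w₁ - 1) * V g - V g * (w₁ - 1)‖ := norm_mul_le _ _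
            _ ≤ 1 * ‖(w₁ - 1) * V g - V g * (w₁ - 1)‖ :=
                mul_le_mul_of_nonneg_right hw₁sn (norm_nonneg _)
            _ ≤ 1 * (‖(w₁ - 1) * V g‖ + ‖V g * (w₁ - 1)‖) :=
                mul_le_mul_of_nonneg_left (norm_sub_le _ _) zero_le_one
            _ ≤ 1 * (‖w₁ - 1‖ * ‖V g‖ + ‖V g‖ * ‖w₁ - 1‖) :=
                mul_le_mul_of_nonneg_left (add_le_add (norm_mul_le _ _) (norm_mul_le _ _))
                  zero_le_one
            _ ≤ 32 * γ := by nlinarith [hVn g, norm_nonneg (w₁ - 1), norm_nonneg (V g)]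
        have h3 : ‖star w₁ * (V g - y) * w₁‖ ≤ γ := by
          calc _ ≤ ‖star w₁ * (V g - y)‖ * ‖w₁‖ := norm_mul_le _ _
            _ ≤ ‖star w₁ * (V g - y)‖ * 1 := mul_le_mul_of_nonneg_left hw₁n (norm_nonneg _)
            _ ≤ (‖star w₁‖ * ‖V g - y‖) * 1 :=
                mul_le_mul_of_nonneg_right (norm_mul_le _ _) zero_le_one
            _ ≤ (1 * γ) * 1 := by
                refine mul_le_mul_of_nonneg_right ?_ zero_le_one
                exact mul_le_mul hw₁sn hyd' (norm_nonneg _) zero_le_one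
            _ = γ := by ring
        calc _ ≤ ‖star w₁ * ((w₁ - 1) * V g - V g * (w₁ - 1))‖ + ‖star w₁ * (V g - y) * w₁‖ :=
              norm_add_le _ _
          _ ≤ 32 * γ + γ := add_le_add h2 h3
          _ = 33 * γ := by ring)
  have hv : w₁ * w₂ ∈ unitary (H →L[ℂ] H) := mul_mem hw₁ hw₂
  have hv1 : ‖w₁ * w₂ - 1‖ ≤ 544 * γ := by
    have h1 : w₁ * w₂ - 1 = w₁ * (w₂ - 1) + (w₁ - 1) := by noncomm_ring
    rw [h1]
    calc ‖w₁ * (w₂ - 1) + (w₁ - 1)‖ ≤ ‖w₁ * (w₂ - 1)‖ + ‖w₁ - 1‖ := norm_add_le _ _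
      _ ≤ ‖w₁‖ * ‖w₂ - 1‖ + ‖w₁ - 1‖ := add_le_add (norm_mul_le _ _) le_rfl
      _ ≤ 544 * γ := by nlinarith [norm_nonneg (w₂ - 1)]
  set v := w₁ * w₂ with hvdef
  have hmem := fun x : H →L[ℂ] H => (mem_cvn (w := v) (hw := hv) (N := N) (x := x))
  have hmem' := fun x : H →L[ℂ] H => (mem_cvn_commutant (w := v) (hw := hv) (N := N) (x := x))
  have hAN : ∀ a ∈ A, a ∈ cvn v hv N := by
    refine span_unitaries hA ((cvn v hv N).toStarSubalgebra.toSubalgebra.toSubmodule) ?_
    intro u huu huA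
    show u ∈ cvn v hv N
    rw [hmem]
    obtain ⟨g, hg⟩ := UI_surj A huu huA
    have h1 : u * w₂ = w₂ * u := by
      refine hw₂c u ?_ ?_
      · intro g'
        exact (hS.comm _ (hsM g') u (hA.le u huA)).symm
      · intro y hy
        have h2 : u ∈ cvn w₁ hw₁ N := by
          rw [mem_cvn, ← hg]
          exact hw₁N g
        exact (VonNeumannAlgebra.mem_commutant_iff.1 hy) u h2
    have h2 : w₁ * w₂ * u * star (w₁ * w₂) = w₁ * u * star w₁ := by
      rw [star_mul]
      calc w₁ * w₂ * u * (star w₂ * star w₁) = w₁ * (w₂ * u) * star w₂ * star w₁ := by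
            noncomm_ring
        _ = w₁ * (u * w₂) * star w₂ * star w₁ := by rw [h1]
        _ = w₁ * u * (w₂ * star w₂) * star w₁ := by noncomm_ring
        _ = w₁ * u * star w₁ := by rw [(Unitary.mem_iff.1 hw₂).2, mul_one]
    rw [hvdef, h2, ← hg]
    exact hw₁N g
  have hρ0 : ρ 0 = 0 := by
    have := hS.smul 0 0 (zero_mem _)
    rwa [zero_smul, zero_smul] at this
  have hAN' : ∀ a ∈ A, ρ a ∈ (cvn v hv N).commutant := by
    let S : Submodule ℂ (H →L[ℂ] H) :=
      { carrier := {a | a ∈ M ∧ ρ a ∈ (cvn v hv N).commutant}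
        add_mem' := fun {a b} ha hb => ⟨add_mem ha.1 hb.1, by
          rw [hS.add a ha.1 b hb.1]; exact add_mem ha.2 hb.2⟩
        zero_mem' := ⟨zero_mem _, by rw [hρ0]; exact zero_mem _⟩
        smul_mem' := fun c a ha => ⟨M.toStarSubalgebra.smul_mem ha.1 c, by
          rw [hS.smul c a ha.1]
          exact (cvn v hv N).commutant.toStarSubalgebra.smul_mem ha.2 c⟩ }
    intro a ha
    refine (span_unitaries hA S ?_ a ha).2
    intro u huu huA
    refine ⟨hA.le u huA, ?_⟩
    rw [hmem']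
    obtain ⟨g, hg⟩ := UI_surj A (Unitary.star_mem huu) (star_mem (s := A) huA)
    have hg' : V g = ρ u := by
      rw [hVd, hg, star_star]
    have h1 := hw₂N g
    rw [mem_cvn_commutant, hg'] at h1
    have h2 : w₁ * w₂ * ρ u * star (w₁ * w₂) = w₁ * (w₂ * ρ u * star w₂) * star w₁ := by
      rw [star_mul]; noncomm_ring
    rw [hvdef, h2]
    exact h1
  have hK : γ + 4 * (544 * γ) ≤ 20000 * γ := by linarith
  have hmono : ∀ {S T : Set (H →L[ℂ] H)}, Near S T (γ + 4 * (544 * γ)) → Near S T (20000 * γ) :=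
    fun h => Pool.Agent.W928.KKS.Red.near_mono h hK
  refine ⟨cvn v hv N, ?_, ⟨v, hv, hmem⟩, ⟨hS, hA, hAN, hAN', ?_, ?_, ?_, ?_⟩⟩
  · have hsv : star v ∈ unitary (H →L[ℂ] H) := Unitary.star_mem hv
    obtain ⟨θ, -⟩ := exists_iso (cj (star v) hsv) (norm_cj (star v) hsv) N (cvn v hv N) (by
      intro z
      rw [hmem]
      constructor
      · intro hz
        refine ⟨_, hz, ?_⟩
        rw [cj_apply, star_star]
        calc z = (star v * v) * z * (star v * v) := by
              rw [(Unitary.mem_iff.1 hv).1, one_mul, mul_one]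
          _ = _ := by noncomm_ring
      · rintro ⟨x, hx, rfl⟩
        rw [cj_apply, star_star]
        have h1 : v * (star v * x * v) * star v = x := by
          calc v * (star v * x * v) * star v = (v * star v) * x * (v * star v) := by noncomm_ring
            _ = x := by rw [(Unitary.mem_iff.1 hv).2, one_mul, mul_one]
        rw [h1]
        exact hx)
    exact ⟨θ⟩
  · exact hmono (near_to hv hmem (by linarith) hv1 hMN)
  · exact hmono (near_from hv hmem hv1 hNM)
  · exact hmono (near_to hv hmem' (by linarith) hv1 hMN')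
  · exact hmono (near_from hv hmem' hv1 hNM')

end Pool.Agent.W99.KKS.GUL
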