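import Pool.Agent.W662.KKS.Stmts3
import Pool.Agent.W928.KKS.Red
import Pool.Agent.W928.KKS.Amp
import Pool.Agent.W459.KKS.Cut

/-! Reduction to the standard form, with a trace on the second algebra (`S_RED2`). The proof is
that of `Pool.Agent.W928.KKS.Red.red`. -/

set_option autoImplicit false
set_option linter.unusedSectionVars false

open scoped InnerProductSpace
open Pool.Agent.Helper278 Pool.Agent.W662.KKS Pool.Agent.W928.KKS.Red

namespace Pool.Agent.W99.KKS.Red2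

theorem red2 (hP : S_PRJ) (hN : S_NC) (hCN : S_CUTN) : S_RED2 := by
  have hA : S_AMP := Pool.Agent.W928.KKS.amp
  have hC : S_CUT := Pool.Agent.W459.KKS.cut
  obtain ⟨K1, hK1, hN⟩ := hN
  obtain ⟨K2, hK2, hP⟩ := hP
  have hK12 : 1 ≤ K1 * K2 := by nlinarith
  refine ⟨K1 * (1 + 4 * (K1 * K2)), by nlinarith, ?_⟩
  intro H _ _ _ M N τ σ d hM hN' hd0 hd hMN hNM
  have hKpos : 0 < K1 * (1 + 4 * (K1 * K2)) := by positivity
  have hdK : d * (K1 * (1 + 4 * (K1 * K2))) ≤ 1 := by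
    rwa [le_div_iff₀ hKpos] at hd
  have hd1 : d ≤ 1 := by
    nlinarith [mul_nonneg hd0.le (by positivity : 0 ≤ K1 * K2)]
  -- amplification
  obtain ⟨A, _, _, _, α, hα, hAM⟩ := hA H
  obtain ⟨Ma, hMa, hMa2⟩ := hAM M
  obtain ⟨Na, hNa, hNa2⟩ := hAM N
  obtain ⟨ζ, hζ⟩ := hMa2 τ hM.normal
  obtain ⟨η, hη⟩ := hNa2 σ hN'.normal
  obtain ⟨θa, hθa⟩ := exists_iso α hα M Ma hMa
  obtain ⟨κa, hκa⟩ := exists_iso α hα N Na hNa
  have hMaNa := near_image α hα hMa hNa hMN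
  have hNaMa := near_image α hα hNa hMa hNM
  have hζ1 : ‖ζ‖ = 1 := by
    have h1 := hζ 1
    rw [hM.trace.one] at h1
    have h2 : α ((1 : Elt M) : H →L[ℂ] H) = 1 := map_one α
    rw [h2] at h1
    have h3 : ⟪ζ, ζ⟫_ℂ = 1 := h1
    have h4 : ‖ζ‖ ^ 2 = 1 := by
      rw [← inner_self_eq_norm_sq (𝕜 := ℂ) ζ, h3]
      exact RCLike.one_re
    nlinarith [norm_nonneg ζ]
  -- the projection
  let E0 : Submodule ℂ A :=
    { carrier := {w | ∃ x ∈ Ma, w = x ζ}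
      add_mem' := by
        rintro _ _ ⟨x, hx, rfl⟩ ⟨y, hy, rfl⟩
        exact ⟨x + y, add_mem hx hy, rfl⟩
      zero_mem' := ⟨0, zero_mem _, rfl⟩
      smul_mem' := by
        rintro c _ ⟨x, hx, rfl⟩
        exact ⟨c • x, Ma.toStarSubalgebra.smul_mem hx c, rfl⟩ }
  let E : Submodule ℂ A := E0.topologicalClosure
  have : CompleteSpace E := E0.isClosed_topologicalClosure.completeSpace_coe
  set e : A →L[ℂ] A := E.starProjection with he
  have hesp : IsStarProjection e := isStarProjection_starProjection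
  have hestar : star e = e := hesp.isSelfAdjoint.star_eq
  have heid : e * e = e := hesp.isIdempotentElem
  have hζE : ζ ∈ E := E0.le_topologicalClosure ⟨1, one_mem _, rfl⟩
  have heζ : e ζ = ζ := Submodule.starProjection_eq_self_iff.2 hζE
  have hζ0 : ζ ≠ 0 := by
    intro h; rw [h, norm_zero] at hζ1; exact zero_ne_one hζ1
  have he0 : e ≠ 0 := by
    intro h; rw [h] at heζ; exact hζ0 heζ.symm
  have heMa : e ∈ Ma.commutant := by
    rw [VonNeumannAlgebra.IsStarProjection.mem_iff hesp, Ma.commutant_commutant]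
    intro y hy
    rw [Module.End.mem_invtSubmodule]
    have h1 : e.range = E := Submodule.range_starProjection E
    rw [h1]
    intro w hw
    have h2 : (y : A → A) '' (closure (E0 : Set A)) ⊆ closure ((y : A → A) '' (E0 : Set A)) :=
      image_closure_subset_closure_image y.continuous
    have h3 : (y : A → A) '' (E0 : Set A) ⊆ E0 := by
      rintro _ ⟨_, ⟨x, hx, rfl⟩, rfl⟩
      exact ⟨y * x, mul_mem hy hx, rfl⟩
    exact closure_mono h3 (h2 ⟨w, hw, rfl⟩)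
  have henorm : ‖e‖ ≤ 1 := Submodule.starProjection_norm_le E
  -- NC
  obtain ⟨y, hy, hey⟩ := hN A Ma Na d hd0 hNaMa e heMa
  have hey' : ‖e - y‖ ≤ K1 * d := by
    refine hey.trans ?_
    have : 0 ≤ K1 * d := by positivity
    nlinarith
  -- PRJ
  have hK1d : K1 * d ≤ 1 / K2 := by
    rw [le_div_iff₀ (by linarith)]
    nlinarith [mul_nonneg (mul_nonneg (by linarith : (0:ℝ) ≤ K1) (by linarith : (0:ℝ) ≤ K2)) hd0.le,
      mul_nonneg (mul_nonneg (mul_nonneg (by linarith : (0:ℝ) ≤ K1) (by linarith : (0:ℝ) ≤ K2)) hd0.le)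
        (by linarith : (0:ℝ) ≤ K1 - 1), mul_nonneg hd0.le (by linarith : (0:ℝ) ≤ K1)]
  obtain ⟨v, hv, hv1, hvN⟩ := hP A Na.commutant e (K1 * d) hestar heid (by positivity) hK1d
    ⟨y, hy, hey'⟩
  have hvv : star v * v = 1 := Unitary.star_mul_self_of_mem hv
  have hvv' : v * star v = 1 := Unitary.mul_star_self_of_mem hv
  -- the conjugated algebra
  have hNb := mem_cjN v hv Na
  set Nb := cjN v hv Na with hNbdef
  obtain ⟨κb, hκb⟩ := exists_iso (cj v hv) (norm_cj v hv) Na Nb hNb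
  have heNb : e ∈ Nb.commutant := by
    rw [VonNeumannAlgebra.mem_commutant_iff]
    intro g hg
    obtain ⟨x, hx, rfl⟩ := (hNb g).1 hg
    rw [cj_apply]
    have h1 : x * (star v * e * v) = star v * e * v * x :=
      (VonNeumannAlgebra.mem_commutant_iff.1 hvN) x hx
    calc v * x * star v * e = v * x * star v * e * 1 := by rw [mul_one]
      _ = v * x * star v * e * (v * star v) := by rw [hvv']
      _ = v * (x * (star v * e * v)) * star v := by noncomm_ring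
      _ = v * (star v * e * v * x) * star v := by rw [h1]
      _ = (v * star v) * e * (v * x * star v) := by noncomm_ring
      _ = e * (v * x * star v) := by rw [hvv', one_mul]
  set D : ℝ := (1 + 4 * (K1 * K2)) * d with hD
  have hD0 : 0 < D := by positivity
  have hδ : ‖v - 1‖ ≤ K1 * K2 * d := by
    refine hv1.trans (le_of_eq ?_); ring
  have hMaNb : Near (Ma : Set (A →L[ℂ] A)) Nb D := by
    intro x hx
    obtain ⟨z, hz, hxz⟩ := hMaNa x hx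
    refine ⟨cj v hv z, (hNb _).2 ⟨z, hz, rfl⟩, ?_⟩
    have h1 := cj_sub v hv hδ z
    have h2 : ‖z‖ ≤ 2 * ‖x‖ := by
      have h3 : ‖z‖ ≤ ‖x‖ + ‖x - z‖ := by
        have h4 : z = x - (x - z) := by abel
        calc ‖z‖ = ‖x - (x - z)‖ := by rw [← h4]
          _ ≤ ‖x‖ + ‖x - z‖ := norm_sub_le _ _
      have h5 : d * ‖x‖ ≤ ‖x‖ := by nlinarith [norm_nonneg x]
      linarith
    have h3 : ‖x - cj v hv z‖ ≤ ‖x - z‖ + ‖cj v hv z - z‖ := by
      have h4 : x - cj v hv z = (x - z) - (cj v hv z - z) := by abel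
      rw [h4]; exact norm_sub_le _ _
    have h4 : 2 * (K1 * K2 * d) * ‖z‖ ≤ 2 * (K1 * K2 * d) * (2 * ‖x‖) :=
      mul_le_mul_of_nonneg_left h2 (by positivity)
    calc ‖x - cj v hv z‖ ≤ d * ‖x‖ + 2 * (K1 * K2 * d) * (2 * ‖x‖) := by linarith
      _ = D * ‖x‖ := by rw [hD]; ring
  have hNbMa : Near (Nb : Set (A →L[ℂ] A)) Ma D := by
    intro z hz
    obtain ⟨w, hw, rfl⟩ := (hNb z).1 hz
    obtain ⟨x, hx, hwx⟩ := hNaMa w hw
    refine ⟨x, hx, ?_⟩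
    have h1 := cj_sub v hv hδ w
    rw [norm_cj]
    have h3 : ‖cj v hv w - x‖ ≤ ‖cj v hv w - w‖ + ‖w - x‖ := by
      have h4 : cj v hv w - x = (cj v hv w - w) + (w - x) := by abel
      rw [h4]; exact norm_add_le _ _
    have h4 : 0 ≤ 2 * (K1 * K2 * d) * ‖w‖ := by positivity
    calc ‖cj v hv w - x‖ ≤ 2 * (K1 * K2 * d) * ‖w‖ + d * ‖w‖ := by linarith
      _ ≤ D * ‖w‖ := by rw [hD]; linarith
  -- cutting down
  obtain ⟨C, _, _, _, V, hV, hVe, hcut⟩ := hC A e hestar heid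
  obtain ⟨M₁, hM₁, hM₁2⟩ := hcut Ma heMa
  obtain ⟨N₁, hN₁, hN₁2⟩ := hcut Nb heNb
  have hMaII : IsIIOneFactor Ma (fun z : Elt Ma => ⟪ζ, (z : A →L[ℂ] A) ζ⟫_ℂ) := by
    refine transport hM θa _ (fun x => ?_) (normal_vec Ma ζ)
    show ⟪ζ, (θa x : A →L[ℂ] A) ζ⟫_ℂ = τ x
    rw [hθa]
    exact hζ x
  have hNbII : IsIIOneFactor Nb (fun z : Elt Nb => ⟪v η, (z : A →L[ℂ] A) (v η)⟫_ℂ) := by
    refine transport hN' (κa.trans κb) _ (fun x => ?_) (normal_vec Nb (v η))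
    show ⟪v η, (κb (κa x) : A →L[ℂ] A) (v η)⟫_ℂ = σ x
    rw [hκb, hκa, cj_apply]
    have h1 : (v * α (x : H →L[ℂ] H) * star v) (v η) = v (α (x : H →L[ℂ] H) η) := by
      have : (v * α (x : H →L[ℂ] H) * star v) * v = v * α (x : H →L[ℂ] H) := by
        rw [mul_assoc, hvv, mul_one]
      calc (v * α (x : H →L[ℂ] H) * star v) (v η)
          = ((v * α (x : H →L[ℂ] H) * star v) * v) η := rfl
        _ = (v * α (x : H →L[ℂ] H)) η := by rw [this]
        _ = v (α (x : H →L[ℂ] H) η) := rfl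
    rw [h1, ← ContinuousLinearMap.adjoint_inner_right v]
    have h2 : (ContinuousLinearMap.adjoint v) (v (α (x : H →L[ℂ] H) η)) =
        α (x : H →L[ℂ] H) η := by
      have h3 : (star v * v) (α (x : H →L[ℂ] H) η) = α (x : H →L[ℂ] H) η := by
        rw [hvv]; rfl
      exact h3
    rw [h2]
    exact hη x
  obtain ⟨θ₁, hθ₁, hθ₁2⟩ := hM₁2 _ hMaII he0
  obtain ⟨κ₁, hκ₁, -⟩ := hN₁2 _ hNbII he0
  obtain ⟨ξ, hξ⟩ := (hVe ζ).1 heζ
  have hM₁II := hθ₁2 ξ (fun x => by rw [hξ])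
  have hN₁II := hCN A Nb _ hNbII C V N₁ κ₁ hV hκ₁
  let Vi : C →ₗᵢ[ℂ] A := ⟨V.toLinearMap, hV⟩
  have hVinner : ∀ a b : C, ⟪V a, V b⟫_ℂ = ⟪a, b⟫_ℂ := fun a b => Vi.inner_map_map a b
  have hnormdiff : ∀ (x y : A →L[ℂ] A) (z w : C →L[ℂ] C), (∀ k, V (z k) = x (V k)) →
      (∀ k, V (w k) = y (V k)) → ‖z - w‖ ≤ ‖x - y‖ := by
    intro x y z w h1 h2
    refine ContinuousLinearMap.opNorm_le_bound _ (norm_nonneg _) (fun k => ?_)
    rw [← hV ((z - w) k), _root_.sub_apply, map_sub, h1, h2,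
      ← _root_.sub_apply, ← hV k]
    exact (x - y).le_opNorm _
  have hM₁N₁ : Near (M₁ : Set (C →L[ℂ] C)) N₁ D := by
    intro z hz
    obtain ⟨x, hx⟩ := EquivLike.surjective θ₁ (⟨z, hz⟩ : Elt M₁)
    have hnx : ‖(x : A →L[ℂ] A)‖ = ‖z‖ := by
      rw [← norm_iso θ₁ x, hx]
    obtain ⟨w, hw, hxw⟩ := hMaNb x x.2
    refine ⟨κ₁ (⟨w, hw⟩ : Elt Nb), (κ₁ (⟨w, hw⟩ : Elt Nb)).2, ?_⟩
    rw [← hnx]
    refine le_trans (hnormdiff (x : A →L[ℂ] A) w z _ ?_ ?_) hxw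
    · intro k
      have := hθ₁ x k
      rw [hx] at this
      exact this
    · intro k
      exact hκ₁ (⟨w, hw⟩ : Elt Nb) k
  have hN₁M₁ : Near (N₁ : Set (C →L[ℂ] C)) M₁ D := by
    intro z hz
    obtain ⟨x, hx⟩ := EquivLike.surjective κ₁ (⟨z, hz⟩ : Elt N₁)
    have hnx : ‖(x : A →L[ℂ] A)‖ = ‖z‖ := by
      rw [← norm_iso κ₁ x, hx]
    obtain ⟨w, hw, hxw⟩ := hNbMa x x.2
    refine ⟨θ₁ (⟨w, hw⟩ : Elt Ma), (θ₁ (⟨w, hw⟩ : Elt Ma)).2, ?_⟩
    rw [← hnx]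
    refine le_trans (hnormdiff (x : A →L[ℂ] A) w z _ ?_ ?_) hxw
    · intro k
      have := hκ₁ x k
      rw [hx] at this
      exact this
    · intro k
      exact hθ₁ (⟨w, hw⟩ : Elt Ma) k
  have hDK : D ≤ K1 * (1 + 4 * (K1 * K2)) * d := by
    rw [hD]
    nlinarith [mul_nonneg hd0.le (by linarith : (0:ℝ) ≤ K1 - 1),
      mul_nonneg (mul_nonneg (mul_nonneg hd0.le (by linarith : (0:ℝ) ≤ K1))
        (by linarith : (0:ℝ) ≤ K2)) (by linarith : (0:ℝ) ≤ K1 - 1)]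
  refine ⟨C, inferInstance, inferInstance, inferInstance, M₁, N₁, _, _, ξ, θa.trans θ₁,
    (κa.trans κb).trans κ₁, hM₁II, hN₁II, ?_, ?_, ?_, near_mono hM₁N₁ hDK, near_mono hN₁M₁ hDK,
    ?_, ?_⟩
  · rw [← hV, hξ, hζ1]
  · intro w ε hε
    have h1 : V w ∈ E := by
      apply Submodule.starProjection_eq_self_iff.1
      exact (hVe (V w)).2 ⟨w, rfl⟩
    have h2 : V w ∈ closure (E0 : Set A) := h1
    obtain ⟨_, ⟨x, hx, rfl⟩, hx'⟩ := Metric.mem_closure_iff.1 h2 ε hε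
    refine ⟨θ₁ (⟨x, hx⟩ : Elt Ma), (θ₁ (⟨x, hx⟩ : Elt Ma)).2, ?_⟩
    rw [← hV, map_sub, hθ₁, hξ, ← dist_eq_norm]
    exact hx'.le
  · intro x hx y hy
    exact hM₁II.trace.tracial (⟨x, hx⟩ : Elt M₁) (⟨y, hy⟩ : Elt M₁)
  · have h1 := hN C M₁ N₁ D hD0 hN₁M₁
    refine near_mono h1 (le_of_eq ?_)
    rw [hD]; ring
  · have h1 := hN C N₁ M₁ D hD0 hM₁N₁
    refine near_mono h1 (le_of_eq ?_)
    rw [hD]; ring

end Pool.Agent.W99.KKS.Red2
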